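import Pool.Agent.helper37.NA.Spec2
import Pool.Agent.helper58.FI.SpecC
import Pool.Agent.helper12.FI.PureF

/-!
# Row NFP (MP_baa4d7_al): the sum over `d` of the alternating sums is zero
-/

set_option autoImplicit false

namespace Pool.Agent.NAB

open Pool.Agent.helper58.DC Pool.Agent.DI Pool.Agent.GR Pool.Agent.OB Pool.Agent.DR Pool.Agent.FI Pool.Agent.FI3 Pool.Agent.FI4 Pool.Agent.FI4I Pool.Agent.LE Pool.Agent.L5

theorem NFP_def {G : Type} [Group G] (p : ℕ) (N : Subgroup G) (φ : G → ℂ) (hφ : φ ∈ IrrOn N) :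
    ∃ d : ℤ, Defect p N φ d := by
  obtain ⟨-, V, _, _, _, ρ, -, hρ⟩ := hφ
  have h1 : φ 1 = (Module.finrank ℂ V : ℂ) := by
    have h2 := congrFun hρ (1 : N)
    rw [Representation.char_one] at h2
    exact h2.symm
  exact ⟨_, _, h1, rfl⟩

theorem NFP_fin {G : Type} [Group G] [Finite G] (p : ℕ) (M : Ideal (integralClosure ℤ ℂ)) (χ : G → ℂ) (N : Subgroup G)
    (hfin : (IrrOn N).Finite) :
    (Function.support fun d : ℤ => ((BlkD p M χ N d).ncard : ℤ)).Finite ∧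
      ∑ᶠ d : ℤ, ((BlkD p M χ N d).ncard : ℤ) = (Blk M χ N).ncard := by
  obtain ⟨h1, h2⟩ := PF_count p N (Blk M χ N) (hfin.subset fun φ h => h.1) fun ψ hψ => NFP_def p N ψ hψ.1
  have h3 : ∀ d : ℤ, Nat.card {ψ : G → ℂ // ψ ∈ Blk M χ N ∧ Defect p N ψ d} = (BlkD p M χ N d).ncard := fun d =>
    Nat.card_coe_set_eq _
  simp only [h3] at h1 h2
  constructor
  · refine h1.subset fun d hd => ?_
    rw [Function.mem_support] at hd ⊢
    exact_mod_cast hd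
  · have h4 := (Nat.castAddMonoidHom ℤ).map_finsum h1
    rw [h2] at h4
    exact h4.symm

theorem NFP (hNEG : NEG_stmt) (hNTN : NTN_stmt) (hNMP : NMP_stmt) (hFT0 : FT0_stmt)
    (hKRG : Pool.Agent.FI4.KRG_stmt) (hB2 : B2_stmt) (hTPR : Pool.Agent.FI.TPR_stmt) : NFP_stmt := by
  classical
  have hfin : ∀ (G : Type) [Group G] [Finite G] (N : Subgroup G), (IrrOn N).Finite := fun G _ _ N => (hB2 G N).1
  intro p e m M hS hem G _ _ χ hχ z x hU hG
  have : Fact p.Prime := ⟨hS.pr⟩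
  have hbz : 1 ≤ bz p := by
    unfold bz
    split_ifs <;> norm_num
  have hme : m < e := by omega
  have hG0 : (Nat.card G : ℤ) ≠ 0 := by exact_mod_cast Nat.card_pos.ne'
  have hf : {C : Finset (Subgroup G) | NCh p (⊤ : Subgroup G) ⊥ C}.Finite := Set.toFinite _
  have hd : ∀ d : ℤ, (Nat.card G : ℤ) * altSum (trivE G) p M χ d ⊤ =
      ∑ C ∈ hf.toFinset, (-1) ^ (C.card + 1) * ((Nat.card (nrm C) : ℤ) * (BlkD p M χ (nrm C) d).ncard) := by
    intro d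
    rw [hFT0 G p M hG χ hχ d, finsum_mem_eq_finite_toFinset_sum _ hf]
  have hs : ∀ C ∈ hf.toFinset, (Function.support fun d : ℤ =>
      (-1 : ℤ) ^ (C.card + 1) * ((Nat.card (nrm C) : ℤ) * (BlkD p M χ (nrm C) d).ncard)).Finite := by
    intro C _
    refine (NFP_fin p M χ (nrm C) (hfin G (nrm C))).1.subset fun d hd => ?_
    rw [Function.mem_support] at hd ⊢
    intro h0
    apply hd
    rw [h0, mul_zero, mul_zero]
  have e1 := finsum_sum_comm hf.toFinset (fun (d : ℤ) (C : Finset (Subgroup G)) =>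
    (-1 : ℤ) ^ (C.card + 1) * ((Nat.card (nrm C) : ℤ) * (BlkD p M χ (nrm C) d).ncard)) hs
  have e2 : ∀ C ∈ hf.toFinset, ∑ᶠ d : ℤ, (-1 : ℤ) ^ (C.card + 1) * ((Nat.card (nrm C) : ℤ) * (BlkD p M χ (nrm C) d).ncard) =
      (-1 : ℤ) ^ (C.card + 1) * ((Nat.card (nrm C) : ℤ) * (Blk M χ (nrm C)).ncard) := by
    intro C _
    obtain ⟨h1, h2⟩ := NFP_fin p M χ (nrm C) (hfin G (nrm C))
    rw [← h2, mul_finsum, mul_finsum]
  rw [Finset.sum_congr rfl e2] at e1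
  have h2 := hKRG p M hS G χ hχ
  have hE : ¬ Eg p e z ≤ ⊥ := fun h =>
    (((hNEG p e hS.pr G z).2.2.2.2.2.1.2 (by omega) hU.od).1) (le_bot_iff.1 h)
  have h3 := hNTN p e m M hS hme G χ hχ z x hU ⊥ hG hE (fun N _ => hNMP p e m M hS hem N)
  rw [h3, hNMP p e m M hS hem G χ hχ z x hU, sub_self, mul_zero] at h2
  have h4 : ((∑ C ∈ hf.toFinset, (-1 : ℤ) ^ (C.card + 1) * ((Nat.card (nrm C) : ℤ) * (Blk M χ (nrm C)).ncard) : ℤ) : ℂ) = 0 := by
    rw [← h2, finsum_mem_eq_finite_toFinset_sum _ hf]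
    push_cast
    rfl
  have h5 : ∑ C ∈ hf.toFinset, (-1 : ℤ) ^ (C.card + 1) * ((Nat.card (nrm C) : ℤ) * (Blk M χ (nrm C)).ncard) = 0 := by
    exact_mod_cast h4
  rw [h5] at e1
  have h9 : (Nat.card G : ℤ) * ∑ᶠ d : ℤ, altSum (trivE G) p M χ d ⊤ = 0 := by
    rw [mul_finsum, ← e1]
    exact finsum_congr hd
  exact (mul_eq_zero.1 h9).resolve_left hG0

end Pool.Agent.NAB
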